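import Pool.Agent.U211.BLV.Der2

/-!
# The mollification of the cone over a map of the sphere of small distortion
-/

set_option autoImplicit false

open Set Filter Topology Metric Function MeasureTheory
open scoped Manifold ContDiff

noncomputable section

namespace Pool.Agent.U211.SPH

open Pool.Agent.Y522 Pool.Agent.U211.BL Pool.Agent.U211.BLV

variable {n d : ℕ} {r₀ : ℝ} (K : Ker n r₀)

/-- the cone over `j` -/
def cone (j : E n → E d) (z : E n) : E d := ‖z‖ • j (‖z‖⁻¹ • z)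

/-- the distances on the unit sphere are multiplied by factors between `m` and `M` -/
def OnS (j : E n → E d) (m M : ℝ) : Prop :=
  ∀ p q : E n, ‖p‖ = 1 → ‖q‖ = 1 → m * ‖p - q‖ ≤ ‖j p - j q‖ ∧ ‖j p - j q‖ ≤ M * ‖p - q‖

theorem rf_inner_rf {w : E n} (hw : ‖w‖ = 1) (s t : E n) :
    inner ℝ (rf w s) (rf w t) = inner ℝ s t := (rfE w hw).inner_map_map s t

theorem rf_inner_left {w : E n} (hw : ‖w‖ = 1) (s t : E n) :
    inner ℝ (rf w s) t = inner ℝ s (rf w t) := by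
  rw [← rf_inner_rf hw s (rf w t), rf_rf hw]

theorem rf_smul (w : E n) (c : ℝ) (s : E n) : rf w (c • s) = c • rf w s := by
  unfold rf
  rw [inner_smul_left, smul_sub, smul_smul]
  congr 2
  simp only [conj_trivial]
  ring

theorem rf_orth {w u : E n} (hu : inner ℝ u w = 0) : rf w u = u := by
  unfold rf
  rw [hu, mul_zero, zero_smul, sub_zero]

theorem dist_sq {p q : E n} (hp : ‖p‖ = 1) (hq : ‖q‖ = 1) :
    ‖p - q‖ ^ 2 = 2 - 2 * inner ℝ p q := by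
  rw [@norm_sub_sq_real, hp, hq]
  ring

variable {j : E n → E d} {m M : ℝ}

theorem sphere_est (hm : 0 ≤ m) (hj : OnS j m M) {w : E n} (hw : ‖w‖ = 1) {a p : E n}
    (ha : ‖a‖ = 1) (hp : ‖p‖ = 1) :
    2 * (M ^ 2 * inner ℝ a p - m ^ 2 * inner ℝ a (rf w p) - (M ^ 2 - m ^ 2)) ≤
      inner ℝ (j a - j (rf w a)) (j p - j (rf w p)) := by
  have ha' : ‖rf w a‖ = 1 := by rw [rf_norm hw, ha]
  have hp' : ‖rf w p‖ = 1 := by rw [rf_norm hw, hp]
  have h0 := BLV.polar (j a) (j (rf w a)) (j p) (j (rf w p))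
  have low : ∀ x y : E n, ‖x‖ = 1 → ‖y‖ = 1 → m ^ 2 * (2 - 2 * inner ℝ x y) ≤ ‖j x - j y‖ ^ 2 := by
    intro x y hx hy
    have h1 := (hj x y hx hy).1
    rw [← dist_sq hx hy, ← mul_pow]
    gcongr
  have up : ∀ x y : E n, ‖x‖ = 1 → ‖y‖ = 1 → ‖j x - j y‖ ^ 2 ≤ M ^ 2 * (2 - 2 * inner ℝ x y) := by
    intro x y hx hy
    have h1 := (hj x y hx hy).2
    rw [← dist_sq hx hy, ← mul_pow]
    gcongr
  have e1 := low a (rf w p) ha hp'
  have e2 := low (rf w a) p ha' hp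
  have e3 := up a p ha hp
  have e4 := up (rf w a) (rf w p) ha' hp'
  rw [rf_inner_left hw] at e2
  rw [rf_inner_rf hw] at e4
  linarith

theorem cone_rf {w : E n} (hw : ‖w‖ = 1) (z : E n) :
    cone j (rf w z) = ‖z‖ • j (rf w (‖z‖⁻¹ • z)) := by
  unfold cone
  rw [rf_norm hw, rf_smul]

theorem cone_est (hm : 0 ≤ m) (hj : OnS j m M) {w : E n} (hw : ‖w‖ = 1) {p : E n}
    (hp : ‖p‖ = 1) (z : E n) :
    2 * (M ^ 2 * inner ℝ z p - m ^ 2 * inner ℝ z (rf w p) - (M ^ 2 - m ^ 2) * ‖z‖) ≤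
      inner ℝ (cone j z - cone j (rf w z)) (j p - j (rf w p)) := by
  rw [cone_rf hw]
  unfold cone
  rcases eq_or_ne z 0 with rfl | hz
  · simp
  have hz' : 0 < ‖z‖ := norm_pos_iff.2 hz
  obtain ⟨a, ha⟩ : ∃ a, a = ‖z‖⁻¹ • z := ⟨_, rfl⟩
  have ha1 : ‖a‖ = 1 := by
    rw [ha, norm_smul, norm_inv, norm_norm, inv_mul_cancel₀ hz'.ne']
  have hza : z = ‖z‖ • a := by
    rw [ha, smul_smul, mul_inv_cancel₀ hz'.ne', one_smul]
  have h1 := mul_le_mul_of_nonneg_left (sphere_est hm hj hw ha1 hp) hz'.le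
  rw [← ha, ← smul_sub, inner_smul_left]
  have e1 : inner ℝ z p = ‖z‖ * inner ℝ a p := by
    conv_lhs => rw [hza]
    rw [inner_smul_left]
    rfl
  have e2 : inner ℝ z (rf w p) = ‖z‖ * inner ℝ a (rf w p) := by
    conv_lhs => rw [hza]
    rw [inner_smul_left]
    rfl
  rw [e1, e2]
  simp only [conj_trivial]
  linarith

/-- the test vector -/
def tv (w u : E n) (P : ℝ) : E n := ‖P • w + u‖⁻¹ • (P • w + u)

section

variable {w u : E n} {P : ℝ}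

theorem q_pos (hw : ‖w‖ = 1) (hu : inner ℝ u w = 0) (hP : 0 < P) : 0 < ‖P • w + u‖ := by
  rw [norm_pos_iff]
  intro h
  have h1 : inner ℝ (P • w + u) w = P := by
    rw [inner_add_left, inner_smul_left, real_inner_self_eq_norm_sq, hw, hu]
    simp
  rw [h, inner_zero_left] at h1
  linarith

theorem q_sq (hw : ‖w‖ = 1) (hu : inner ℝ u w = 0) : ‖P • w + u‖ ^ 2 = P ^ 2 + ‖u‖ ^ 2 := by
  rw [@norm_add_sq_real, inner_smul_left, real_inner_comm, hu, norm_smul, hw, Real.norm_eq_abs,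
    mul_one, sq_abs]
  simp

theorem tv_norm (hw : ‖w‖ = 1) (hu : inner ℝ u w = 0) (hP : 0 < P) : ‖tv w u P‖ = 1 := by
  unfold tv
  rw [norm_smul, norm_inv, norm_norm, inv_mul_cancel₀ (q_pos hw hu hP).ne']

/-- the pointwise estimate -/
theorem pz (hm : 0 ≤ m) (hmM : m ≤ M) (hj : OnS j m M) (hw : ‖w‖ = 1) (hu : inner ℝ u w = 0)
    (hP : 0 < P) (z : E n) :
    2 * ‖P • w + u‖⁻¹ * ((M ^ 2 + m ^ 2) * P * inner ℝ z w + (M ^ 2 - m ^ 2) * inner ℝ z u -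
      (M ^ 2 - m ^ 2) * (‖z‖ ^ 2 + (P ^ 2 + ‖u‖ ^ 2)) / 2) ≤
      inner ℝ (cone j z - cone j (rf w z)) (j (tv w u P) - j (rf w (tv w u P))) := by
  have h1 := cone_est hm hj hw (tv_norm hw hu hP) z
  refine le_trans ?_ h1
  obtain ⟨q, hq⟩ : ∃ q, q = ‖P • w + u‖ := ⟨_, rfl⟩
  have hq0 : 0 < q := hq ▸ q_pos hw hu hP
  have hq2 : q ^ 2 = P ^ 2 + ‖u‖ ^ 2 := by rw [hq, q_sq hw hu]
  rw [← hq2]
  have e1 : inner ℝ z (tv w u P) = q⁻¹ * (P * inner ℝ z w + inner ℝ z u) := by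
    unfold tv
    rw [← hq, inner_smul_right, inner_add_right, inner_smul_right]
  have e2 : inner ℝ z (rf w (tv w u P)) = q⁻¹ * (-(P * inner ℝ z w) + inner ℝ z u) := by
    unfold tv
    rw [← hq, rf_smul, rf_add, rf_smul_w hw, rf_orth hu, inner_smul_right, inner_add_right,
      inner_neg_right, inner_smul_right]
  rw [e1, e2, ← hq]
  have h2 : ‖z‖ ≤ q⁻¹ * ((‖z‖ ^ 2 + q ^ 2) / 2) := by
    rw [inv_mul_eq_div, le_div_iff₀ hq0]
    nlinarith [sq_nonneg (‖z‖ - q)]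
  have h3 : 0 ≤ M ^ 2 - m ^ 2 := by nlinarith
  have h4 := mul_le_mul_of_nonneg_left h2 h3
  have h5 : 2 * q⁻¹ * ((M ^ 2 + m ^ 2) * P * inner ℝ z w + (M ^ 2 - m ^ 2) * inner ℝ z u -
      (M ^ 2 - m ^ 2) * (‖z‖ ^ 2 + q ^ 2) / 2) =
      2 * (M ^ 2 * (q⁻¹ * (P * inner ℝ z w + inner ℝ z u)) -
        m ^ 2 * (q⁻¹ * (-(P * inner ℝ z w) + inner ℝ z u)) -
        (M ^ 2 - m ^ 2) * (q⁻¹ * ((‖z‖ ^ 2 + q ^ 2) / 2))) := by ring
  rw [h5]
  linarith

/-- the symmetric pair -/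
theorem pt (hm : 0 ≤ m) (hmM : m ≤ M) (hj : OnS j m M) (hw : ‖w‖ = 1) (hu : inner ℝ u w = 0)
    (hP : 0 < P) (τ : ℝ) (s : E n) :
    2 * ‖P • w + u‖⁻¹ * (2 * (M ^ 2 + m ^ 2) * P * inner ℝ s w -
      (M ^ 2 - m ^ 2) * (P ^ 2 + ‖s‖ ^ 2 + τ ^ 2)) ≤
      inner ℝ ((cone j (u + τ • w + s) - cone j (rf w (u + τ • w + s))) +
        (cone j (u - τ • w + s) - cone j (rf w (u - τ • w + s))))
        (j (tv w u P) - j (rf w (tv w u P))) := by
  have h1 := pz hm hmM hj hw hu hP (u + τ • w + s)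
  have h2 := pz hm hmM hj hw hu hP (u - τ • w + s)
  rw [inner_add_left]
  refine le_trans (le_of_eq ?_) (add_le_add h1 h2)
  have huw : inner ℝ w u = 0 := by rw [real_inner_comm]; exact hu
  have hww : inner ℝ w w = (1 : ℝ) := by rw [real_inner_self_eq_norm_sq, hw, one_pow]
  have hus : inner ℝ u s = inner ℝ s u := real_inner_comm _ _
  have hws : inner ℝ w s = inner ℝ s w := real_inner_comm _ _
  simp only [← real_inner_self_eq_norm_sq, inner_add_left, inner_add_right, inner_sub_left,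
    inner_sub_right, inner_smul_left, inner_smul_right, huw, hu, hww, hus, hws, conj_trivial]
  ring

end

end Pool.Agent.U211.SPH
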