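import Pool.Agent.U211.SPH.Path

/-!
# Assembly of the isotopy
-/

set_option autoImplicit false

open Set Filter Topology Metric Function MeasureTheory
open scoped Manifold ContDiff Convolution

noncomputable section

namespace Pool.Agent.U211.SPH

open Pool.Agent.Y522 Pool.Agent.U211.BL Pool.Agent.U211.BLV Pool.Agent.U211.ISO

variable {n d : ℕ} {r₀ : ℝ} (K : Ker n r₀)

variable {j : E n → E d} {m M : ℝ}

/-- a lower bound for the distances makes the derivative injective -/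
theorem deriv_of_lower {f : E n → E d} {c : ℝ} (hc : 0 < c)
    (h : ∀ p q : E n, ‖p‖ = 1 → ‖q‖ = 1 → c * ‖p - q‖ ≤ ‖f p - f q‖) {x w : E n} (hx : ‖x‖ = 1)
    (hf : DifferentiableAt ℝ f x) (hxw : inner ℝ x w = 0) (hw : ‖w‖ = 1) : fderiv ℝ f x w ≠ 0 := by
  intro h0
  obtain ⟨γ, hγ⟩ : ∃ γ : ℝ → E n, γ = fun s => Real.cos s • x + Real.sin s • w := ⟨_, rfl⟩
  have hγ0 : γ 0 = x := by
    rw [hγ]
    simp
  have hγd : HasDerivAt γ w 0 := by
    have h1 := ((Real.hasDerivAt_cos 0).smul_const x).add ((Real.hasDerivAt_sin 0).smul_const w)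
    have h2 : -Real.sin 0 • x + Real.cos 0 • w = w := by simp
    rw [h2] at h1
    rw [hγ]
    exact h1
  have hγn : ∀ s, ‖γ s‖ = 1 := by
    intro s
    have h1 : ‖γ s‖ ^ 2 = 1 := by
      rw [hγ]
      show ‖Real.cos s • x + Real.sin s • w‖ ^ 2 = 1
      rw [@norm_add_sq_real, inner_smul_left, inner_smul_right, hxw, norm_smul, norm_smul, hx, hw,
        mul_one, mul_one, Real.norm_eq_abs, Real.norm_eq_abs, sq_abs, sq_abs]
      simp only [conj_trivial, mul_zero, add_zero]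
      exact Real.cos_sq_add_sin_sq s
    nlinarith [norm_nonneg (γ s)]
  have h1 : HasDerivAt (f ∘ γ) (fderiv ℝ f x w) 0 :=
    HasFDerivAt.comp_hasDerivAt (f := γ) 0 (by rw [hγ0]; exact hf.hasFDerivAt) hγd
  rw [h0] at h1
  have h2 := hasDerivAt_iff_isLittleO.1 h1
  have h3 : HasDerivAt γ 0 0 := by
    rw [hasDerivAt_iff_isLittleO]
    refine Asymptotics.IsBigO.trans_isLittleO ?_ h2
    apply Asymptotics.IsBigO.of_bound c⁻¹
    refine Eventually.of_forall fun s => ?_
    simp only [smul_zero, sub_zero, comp_apply]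
    rw [inv_mul_eq_div, le_div_iff₀ hc, mul_comm]
    exact h _ _ (hγn s) (hγn 0)
  have h4 := hγd.unique h3
  rw [h4, norm_zero] at hw
  norm_num at hw

theorem cone_emb (hm : 0 < m) (hj : OnS j m M) (hs : SmS j) : EmbS (cone j) := by
  have hlow : ∀ p q : E n, ‖p‖ = 1 → ‖q‖ = 1 → m * ‖p - q‖ ≤ ‖cone j p - cone j q‖ := by
    intro p q hp hq
    rw [cone_of_norm hp, cone_of_norm hq]
    exact (hj p q hp hq).1
  refine ⟨fun x y hx hy hxy => ?_, fun x w hx hxw hw => ?_⟩
  · have h1 := hlow x y hx hy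
    rw [hxy, sub_self, norm_zero] at h1
    have h2 : ‖x - y‖ ≤ 0 := by
      by_contra hcon
      push Not at hcon
      nlinarith
    exact sub_eq_zero.1 (norm_le_zero_iff.1 h2)
  · have hw0 : 0 < ‖w‖ := norm_pos_iff.2 hw
    have hx0 : x ≠ 0 := by
      rintro rfl
      rw [norm_zero] at hx
      norm_num at hx
    intro h0
    refine deriv_of_lower hm hlow hx ((cone_smooth hs hx0).differentiableAt (by simp))
      (w := ‖w‖⁻¹ • w) ?_ ?_ ?_
    · rw [inner_smul_right, hxw, mul_zero]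
    · rw [norm_smul, norm_inv, norm_norm, inv_mul_cancel₀ hw0.ne']
    · rw [map_smul, h0, smul_zero]

/-- the last stage -/
theorem lin_emb (hj : OnS j m M) {A : E n →L[ℝ] E d} {a₀ η δ : ℝ} (hη : η < a₀)
    (hA : ∀ x, a₀ * ‖x‖ ≤ ‖A x‖)
    (hδ : ∀ y ∈ ball (0 : E n) δ, ‖fderiv ℝ (GG K j) y - A‖ ≤ η) {t : ℝ} (ht : 0 < t)
    (ht2 : 1 < t * δ) {σ : ℝ} (hσ0 : 0 ≤ σ) (hσ1 : σ ≤ 1) :
    EmbS (fun x => (1 - σ) • FS K j t x + σ • A x) := by
  have hball : ∀ x : E n, ‖x‖ = 1 → t⁻¹ • x ∈ ball (0 : E n) δ := by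
    intro x hx
    rw [mem_ball_zero_iff, norm_smul, norm_inv, Real.norm_of_nonneg ht.le, hx, mul_one,
      inv_lt_iff_one_lt_mul₀ ht, mul_comm]
    exact ht2
  have hdiff : ∀ y, DifferentiableAt ℝ (GG K j) y := fun y =>
    (GG_smooth K hj).differentiable (by simp) y
  have hFx : ∀ x, FS K j t x = t • GG K j (t⁻¹ • x) := fun x => FS_pos K ht x
  constructor
  · intro x y hx hy hxy
    have h1 := (convex_ball (0 : E n) δ).norm_image_sub_le_of_norm_fderiv_le' (f := GG K j)
      (φ := A) (C := η) (fun z _ => hdiff z) hδ (hball y hy) (hball x hx)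
    have h2 : A (x - y) = -((1 - σ) • t • (GG K j (t⁻¹ • x) - GG K j (t⁻¹ • y) -
        A (t⁻¹ • x - t⁻¹ • y))) := by
      have h3 : t • A (t⁻¹ • x - t⁻¹ • y) = A (x - y) := by
        rw [← smul_sub, map_smul, smul_smul, mul_inv_cancel₀ ht.ne', one_smul]
      rw [smul_sub t, h3, smul_sub (1 - σ)]
      have h4 : (1 - σ) • FS K j t x + σ • A x = (1 - σ) • FS K j t y + σ • A y := hxy
      rw [hFx, hFx] at h4
      have h5 : (1 - σ) • t • (GG K j (t⁻¹ • x) - GG K j (t⁻¹ • y)) = -(σ • A (x - y)) := by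
        rw [map_sub, smul_sub t, smul_sub (1 - σ), smul_sub σ]
        have h6 := sub_eq_zero.2 h4
        rw [← sub_eq_zero]
        rw [← h6]
        abel
      rw [h5, sub_smul, one_smul]
      abel
    have h3 : ‖A (x - y)‖ ≤ η * ‖x - y‖ := by
      rw [h2, norm_neg, norm_smul, norm_smul, Real.norm_of_nonneg (by linarith),
        Real.norm_of_nonneg ht.le]
      calc (1 - σ) * (t * ‖GG K j (t⁻¹ • x) - GG K j (t⁻¹ • y) - A (t⁻¹ • x - t⁻¹ • y)‖)
          ≤ 1 * (t * (η * ‖t⁻¹ • x - t⁻¹ • y‖)) := by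
            apply mul_le_mul (by linarith) _ (by positivity) zero_le_one
            exact mul_le_mul_of_nonneg_left h1 ht.le
        _ = η * ‖x - y‖ := by
            rw [← smul_sub, norm_smul, norm_inv, Real.norm_of_nonneg ht.le]
            field_simp
    have h4 := hA (x - y)
    have h5 : ‖x - y‖ ≤ 0 := by
      by_contra hcon
      push Not at hcon
      nlinarith
    exact sub_eq_zero.1 (norm_le_zero_iff.1 h5)
  · intro x w hx hxw hw0 h0
    have hw : 0 < ‖w‖ := norm_pos_iff.2 hw0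
    have h1 : HasFDerivAt (fun x : E n => t⁻¹ • x) (t⁻¹ • ContinuousLinearMap.id ℝ (E n)) x :=
      (hasFDerivAt_id x).const_smul t⁻¹
    have h2 : HasFDerivAt (fun x => t • GG K j (t⁻¹ • x))
        (t • (fderiv ℝ (GG K j) (t⁻¹ • x)).comp (t⁻¹ • ContinuousLinearMap.id ℝ (E n))) x :=
      (HasFDerivAt.comp (f := fun x : E n => t⁻¹ • x) x (hdiff _).hasFDerivAt h1).const_smul t
    have h3 : HasFDerivAt (fun x => (1 - σ) • FS K j t x + σ • A x)
        ((1 - σ) • (t • (fderiv ℝ (GG K j) (t⁻¹ • x)).comp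
          (t⁻¹ • ContinuousLinearMap.id ℝ (E n))) + σ • A) x := by
      have h4 : (fun x => (1 - σ) • FS K j t x + σ • A x) =
          fun x => (1 - σ) • (t • GG K j (t⁻¹ • x)) + σ • A x := by
        funext x
        rw [hFx]
      rw [h4]
      exact (h2.const_smul (1 - σ)).add (A.hasFDerivAt.const_smul σ)
    rw [h3.fderiv] at h0
    have h5 : (1 - σ) • (t • (fderiv ℝ (GG K j) (t⁻¹ • x)) (t⁻¹ • w)) + σ • A w = 0 := h0
    rw [map_smul, smul_smul t, mul_inv_cancel₀ ht.ne', one_smul] at h5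
    have h6 : A w = -((1 - σ) • ((fderiv ℝ (GG K j) (t⁻¹ • x) - A) w)) := by
      rw [sub_apply, smul_sub, ← sub_eq_zero]
      rw [← h5, sub_smul, sub_smul, one_smul, one_smul]
      abel
    have h7 : ‖A w‖ ≤ η * ‖w‖ := by
      rw [h6, norm_neg, norm_smul, Real.norm_of_nonneg (by linarith)]
      calc (1 - σ) * ‖(fderiv ℝ (GG K j) (t⁻¹ • x) - A) w‖ ≤ 1 * (η * ‖w‖) := by
            apply mul_le_mul (by linarith) _ (norm_nonneg _) zero_le_one
            exact (ContinuousLinearMap.le_opNorm _ _).trans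
              (mul_le_mul_of_nonneg_right (hδ _ (hball x hx)) (norm_nonneg _))
        _ = η * ‖w‖ := one_mul _
    have h8 := hA w
    nlinarith

include K in
/-- **The isotopy.** -/
theorem exists_isotopy (hr0 : 0 < r₀) (hm : 0 < m) (hmM : m ≤ M) (hj : OnS j m M)
    (hN : NC n r₀ m M) (hs : SmS j) :
    ∃ (A : E n →L[ℝ] E d) (k : ℝ × E n → E d), Injective A ∧
      (∀ t x, ‖x‖ = 1 → ContDiffAt ℝ ∞ k (t, x)) ∧ (∀ x, k (0, x) = A x) ∧
      (∀ x, ‖x‖ = 1 → k (1, x) = j x) ∧ ∀ t, EmbS (fun x => k (t, x)) := by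
  obtain ⟨A, hA⟩ : ∃ A, A = fderiv ℝ (GG K j) 0 := ⟨_, rfl⟩
  have hAinj : Injective A := by
    rw [injective_iff_map_eq_zero]
    intro w hw0
    by_contra hne
    have hw : 0 < ‖w‖ := norm_pos_iff.2 hne
    obtain ⟨D, hD1, hD2⟩ := GG_hasFDerivAt K hj 0
    rw [hA, hD1.fderiv] at hw0
    have h1 : D (‖w‖⁻¹ • w) = 0 := by rw [map_smul, hw0, smul_zero]
    rw [hD2] at h1
    refine imm K hr0 hm hmM hj hN ?_ ?_ h1
    · rw [norm_smul, norm_inv, norm_norm, inv_mul_cancel₀ hw.ne']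
    · exact inner_zero_left _
  obtain ⟨c, hc0, hc⟩ := LinearMap.exists_antilipschitzWith (A : E n →ₗ[ℝ] E d)
    (LinearMap.ker_eq_bot.2 hAinj)
  have hc0' : (0 : ℝ) < c := by exact_mod_cast hc0
  have hA1 : ∀ x, (c : ℝ)⁻¹ * ‖x‖ ≤ ‖A x‖ := by
    intro x
    have h1 := hc.le_mul_dist x 0
    rw [dist_eq_norm, dist_eq_norm, map_zero, sub_zero, sub_zero] at h1
    rw [inv_mul_le_iff₀ hc0']
    exact h1
  obtain ⟨a₀, ha₀⟩ : ∃ a₀ : ℝ, a₀ = (c : ℝ)⁻¹ := ⟨_, rfl⟩
  have ha0 : 0 < a₀ := by rw [ha₀]; positivity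
  rw [← ha₀] at hA1
  have hcd : Continuous (fderiv ℝ (GG K j)) := (GG_smooth K hj).continuous_fderiv (by simp)
  have hc0c : ContinuousAt (fderiv ℝ (GG K j)) (0 : E n) := hcd.continuousAt
  obtain ⟨δ, hδ0, hδ⟩ := Metric.continuousAt_iff.1 hc0c (a₀ / 2) (by positivity)
  have hδ' : ∀ y ∈ ball (0 : E n) δ, ‖fderiv ℝ (GG K j) y - A‖ ≤ a₀ / 2 := by
    intro y hy
    have := hδ (x := y) (by simpa using hy)
    rw [dist_eq_norm, ← hA] at this
    exact this.le
  obtain ⟨r, hr⟩ : ∃ r, r = 2 / δ := ⟨_, rfl⟩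
  have hr1 : 0 < r := by rw [hr]; positivity
  have hr2 : 1 < r * δ := by
    rw [hr, div_mul_cancel₀ _ hδ0.ne']
    norm_num
  refine ⟨A, fun q => (1 - sg q.1) • FS K j (th r q.1) q.2 + sg q.1 • A q.2, hAinj, ?_, ?_, ?_, ?_⟩
  · intro t x hx
    have h1 : ContDiffAt ℝ ∞ (fun q : ℝ × E n => FS K j (th r q.1) q.2) (t, x) := by
      have h2 : ContDiffAt ℝ ∞ (fun q : ℝ × E n => (th r q.1, q.2)) (t, x) :=
        (((th_smooth r).comp contDiff_fst).prodMk contDiff_snd).contDiffAt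
      exact ContDiffAt.comp (t, x) (f := fun q : ℝ × E n => (th r q.1, q.2))
        (FS_smooth K hj hs (th_nonneg hr1 t) hx) h2
    have h3 : ContDiff ℝ ∞ (fun q : ℝ × E n => sg q.1) := sg_smooth.comp contDiff_fst
    have h4 : ContDiff ℝ ∞ (fun q : ℝ × E n => A q.2) := A.contDiff.comp contDiff_snd
    exact ((contDiffAt_const.sub h3.contDiffAt).smul h1).add (h3.contDiffAt.smul h4.contDiffAt)
  · intro x
    have h : sg 0 = 1 := by
      unfold sg
      rw [mul_zero, Real.smoothTransition.zero, sub_zero]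
    show (1 - sg 0) • FS K j (th r 0) x + sg 0 • A x = A x
    rw [h, sub_self, zero_smul, zero_add, one_smul]
  · intro x hx
    have h : sg 1 = 0 := by
      unfold sg
      rw [Real.smoothTransition.one_of_one_le (by norm_num), sub_self]
    have h2 : th r 1 = 0 := by
      unfold th
      rw [Real.smoothTransition.one_of_one_le (by norm_num), sub_self, mul_zero]
    show (1 - sg 1) • FS K j (th r 1) x + sg 1 • A x = j x
    rw [h, h2, FS_zero, sub_zero, one_smul, zero_smul, add_zero, cone_of_norm hx]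
  · intro t
    rcases le_or_gt t (1 / 2) with ht | ht
    · have h1 : th r t = r := by
        unfold th
        rw [Real.smoothTransition.zero_of_nonpos (by linarith), sub_zero, mul_one]
      simp only [h1]
      exact lin_emb K hj (by linarith) hA1 hδ' hr1 hr2 (sg_nonneg t) (sg_le t)
    · have h1 : sg t = 0 := by
        unfold sg
        rw [Real.smoothTransition.one_of_one_le (by linarith), sub_self]
      have h2 : (fun x => (1 - sg t) • FS K j (th r t) x + sg t • A x) = FS K j (th r t) := by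
        funext x
        rw [h1, sub_zero, one_smul, zero_smul, add_zero]
      show EmbS (fun x => (1 - sg t) • FS K j (th r t) x + sg t • A x)
      rw [h2]
      rcases (th_nonneg hr1 t).eq_or_lt with h3 | h3
      · have h4 : FS K j (th r t) = cone j := by
          funext x
          rw [← h3, FS_zero]
        rw [h4]
        exact cone_emb hm hj hs
      · exact FS_emb K hr0 hm hmM hj hN h3

end Pool.Agent.U211.SPH
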