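import Pool.Agent.U211.SPH.IntA

/-!
# Integration of the pointwise estimates
-/

set_option autoImplicit false

open Set Filter Topology Metric Function MeasureTheory
open scoped Manifold ContDiff

noncomputable section

namespace Pool.Agent.U211.SPH

open Pool.Agent.Y522 Pool.Agent.U211.BL Pool.Agent.U211.BLV

variable {n d : ℕ} {r₀ : ℝ} (K : Ker n r₀)

variable {j : E n → E d} {m M : ℝ}

section

variable {w u : E n} {P : ℝ}

/-- the estimate for the derivative -/
theorem small (hr0 : 0 < r₀) (hm : 0 ≤ m) (hmM : m ≤ M) (hj : OnS j m M) (hw : ‖w‖ = 1)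
    (hu : inner ℝ u w = 0) (hP : 0 < P) (τ : ℝ) :
    ‖P • w + u‖⁻¹ * (2 * (M ^ 2 + m ^ 2) * P - (M ^ 2 - m ^ 2) * (P ^ 2 + 1 + τ ^ 2) *
      (Real.sqrt n / r₀)) ≤
      inner ℝ (DD K j w (u + τ • w) + DD K j w (u - τ • w))
        (j (tv w u P) - j (rf w (tv w u P))) := by
  obtain ⟨e, he⟩ : ∃ e, e = j (tv w u P) - j (rf w (tv w u P)) := ⟨_, rfl⟩
  rw [← he]
  have hrfc : Continuous (rf w) := (rfE w hw).continuous
  have hf : ∀ v, Continuous fun s => cone j (v + s) := cs_cont hj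
  have hfr : ∀ v, Continuous fun s => cone j (rf w (v + s)) := fun v =>
    (cone_cont hj).comp (hrfc.comp (by fun_prop))
  have hDD : ∀ v, inner ℝ (DD K j w v) e =
      ∫ s, K.g s * (inner ℝ s w * inner ℝ (cone j (v + s)) e) := by
    intro v
    have h1 := BLV.g_smul_integrable K (hf v).continuousOn w
    unfold DD
    rw [real_inner_comm, ← integral_inner (𝕜 := ℝ) h1 e]
    congr 1
    funext s
    rw [inner_smul_right, real_inner_comm _ e]
    ring
  have hI1 : ∀ v, Integrable fun s => K.g s * (inner ℝ s w * inner ℝ (cone j (v + s)) e) := by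
    intro v
    apply K.g_mul_integrable
    exact ((continuous_id.inner continuous_const).mul ((hf v).inner continuous_const)).continuousOn
  have hI2 : ∀ v, Integrable fun s => K.g s * (inner ℝ s w * inner ℝ (cone j (rf w (v + s))) e) := by
    intro v
    apply K.g_mul_integrable
    exact ((continuous_id.inner continuous_const).mul ((hfr v).inner continuous_const)).continuousOn
  have hrefl : ∀ v, ∫ s, K.g s * (inner ℝ s w * inner ℝ (cone j (rf w v + s)) e) =
      -∫ s, K.g s * (inner ℝ s w * inner ℝ (cone j (rf w (v + s))) e) := by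
    intro v
    rw [← integral_rf hw, ← integral_neg]
    congr 1
    funext s
    rw [K.grad (rf w s) s (rf_norm hw s), rf_inner hw, ← rf_add]
    ring
  have hvp : rf w (u - τ • w) = u + τ • w := by
    rw [sub_eq_add_neg, rf_add, ← neg_smul, rf_smul_w hw, rf_orth hu, neg_smul, neg_neg]
  have hvm : rf w (u + τ • w) = u - τ • w := by
    rw [rf_add, rf_smul_w hw, rf_orth hu, ← sub_eq_add_neg]
  have r1 := hrefl (u + τ • w)
  have r2 := hrefl (u - τ • w)
  rw [hvm] at r1
  rw [hvp] at r2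
  obtain ⟨I, hI⟩ : ∃ I : ℝ, I = inner ℝ (DD K j w (u + τ • w) + DD K j w (u - τ • w)) e := ⟨_, rfl⟩
  have hI' := hI
  rw [inner_add_left, hDD, hDD] at hI'
  obtain ⟨Δ, hΔ⟩ : ∃ Δ : E n → E d, Δ = fun s =>
    (cone j (u + τ • w + s) - cone j (rf w (u + τ • w + s))) +
      (cone j (u - τ • w + s) - cone j (rf w (u - τ • w + s))) := ⟨_, rfl⟩
  have hΔc : Continuous Δ := by
    rw [hΔ]
    exact ((hf _).sub (hfr _)).add ((hf _).sub (hfr _))
  have h2I : 2 * I = ∫ s, K.g s * (inner ℝ s w * inner ℝ (Δ s) e) := by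
    have h1 : ∀ s, K.g s * (inner ℝ s w * inner ℝ (Δ s) e) =
        (K.g s * (inner ℝ s w * inner ℝ (cone j (u + τ • w + s)) e) -
          K.g s * (inner ℝ s w * inner ℝ (cone j (rf w (u + τ • w + s))) e)) +
        (K.g s * (inner ℝ s w * inner ℝ (cone j (u - τ • w + s)) e) -
          K.g s * (inner ℝ s w * inner ℝ (cone j (rf w (u - τ • w + s))) e)) := by
      intro s
      rw [hΔ]
      simp only [inner_add_left, inner_sub_left]
      ring
    have hI3 : ∀ v, Integrable fun s => K.g s * (inner ℝ s w * inner ℝ (cone j (v + s)) e) -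
        K.g s * (inner ℝ s w * inner ℝ (cone j (rf w (v + s))) e) := fun v => (hI1 v).sub (hI2 v)
    simp only [h1]
    rw [integral_add (hI3 (u + τ • w)) (hI3 (u - τ • w)), integral_sub (hI1 _) (hI2 _),
      integral_sub (hI1 _) (hI2 _)]
    linarith
  have hodd : ∀ s, Δ (rf w s) = -Δ s := by
    intro s
    rw [hΔ]
    show (cone j (u + τ • w + rf w s) - cone j (rf w (u + τ • w + rf w s))) +
      (cone j (u - τ • w + rf w s) - cone j (rf w (u - τ • w + rf w s))) =
      -((cone j (u + τ • w + s) - cone j (rf w (u + τ • w + s))) +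
        (cone j (u - τ • w + s) - cone j (rf w (u - τ • w + s))))
    have a1 : u + τ • w + rf w s = rf w (u - τ • w + s) := by rw [rf_add, hvp]
    have a2 : u - τ • w + rf w s = rf w (u + τ • w + s) := by rw [rf_add, hvm]
    rw [a1, a2, rf_rf hw, rf_rf hw]
    generalize cone j (rf w (u - τ • w + s)) = A1
    generalize cone j (rf w (u + τ • w + s)) = A2
    generalize cone j (u - τ • w + s) = A3
    generalize cone j (u + τ • w + s) = A4
    abel
  obtain ⟨B, hB⟩ : ∃ B : ℝ, B = (M ^ 2 - m ^ 2) * (P ^ 2 + 1 + τ ^ 2) := ⟨_, rfl⟩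
  have hMm : 0 ≤ M ^ 2 - m ^ 2 := by nlinarith
  have hB0 : 0 ≤ B := by
    rw [hB]
    positivity
  have hq0 : 0 ≤ 2 * ‖P • w + u‖⁻¹ := by positivity
  have hpt0 : ∀ s : E n, ‖s‖ ≤ 1 → 2 * ‖P • w + u‖⁻¹ * (2 * (M ^ 2 + m ^ 2) * P * inner ℝ s w - B) ≤
      inner ℝ (Δ s) e := by
    intro s hs
    have h1 := pt hm hmM hj hw hu hP τ s
    rw [← he] at h1
    rw [hΔ]
    refine le_trans ?_ h1
    apply mul_le_mul_of_nonneg_left _ hq0
    rw [hB]
    have hs2 : ‖s‖ ^ 2 ≤ 1 := by nlinarith [norm_nonneg s]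
    nlinarith [mul_nonneg hMm (sub_nonneg.2 hs2)]
  have hpt : ∀ s, 2 * ‖P • w + u‖⁻¹ * (2 * (M ^ 2 + m ^ 2) * P * (K.g s * (inner ℝ s w) ^ 2) -
      B * (K.g s * |inner ℝ s w|)) ≤ K.g s * (inner ℝ s w * inner ℝ (Δ s) e) := by
    intro s
    by_cases hg : K.g s = 0
    · rw [hg]
      simp
    have hs : ‖s‖ ≤ 1 := by
      by_contra hc
      exact hg (K.gzero s (not_le.1 hc))
    have h1 : 2 * ‖P • w + u‖⁻¹ * (2 * (M ^ 2 + m ^ 2) * P * (K.g s * (inner ℝ s w) ^ 2) -
        B * (K.g s * |inner ℝ s w|)) = K.g s * (|inner ℝ s w| *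
          (2 * ‖P • w + u‖⁻¹ * (2 * (M ^ 2 + m ^ 2) * P * |inner ℝ s w| - B))) := by
      have : (inner ℝ s w : ℝ) ^ 2 = |inner ℝ s w| ^ 2 := (sq_abs _).symm
      rw [this]
      ring
    rw [h1]
    apply mul_le_mul_of_nonneg_left _ (K.gnonneg s)
    rcases le_total 0 (inner ℝ s w : ℝ) with hσ | hσ
    · rw [abs_of_nonneg hσ]
      exact mul_le_mul_of_nonneg_left (hpt0 s hs) hσ
    · rw [abs_of_nonpos hσ]
      have h3 : (inner ℝ s w : ℝ) * inner ℝ (Δ s) e = (-inner ℝ s w) * inner ℝ (Δ (rf w s)) e := by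
        rw [hodd, inner_neg_left]
        ring
      rw [h3]
      apply mul_le_mul_of_nonneg_left _ (by linarith)
      rw [← rf_inner hw]
      exact hpt0 _ (by rw [rf_norm hw]; exact hs)
  have hJ1 : Integrable fun s => K.g s * (inner ℝ s w : ℝ) ^ 2 := K.g_mul_integrable (by fun_prop)
  have hJ2 : Integrable fun s => K.g s * |(inner ℝ s w : ℝ)| := K.g_mul_integrable (by fun_prop)
  have hJ3 : Integrable fun s => K.g s * (inner ℝ s w * inner ℝ (Δ s) e) := by
    apply K.g_mul_integrable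
    exact ((continuous_id.inner continuous_const).mul (hΔc.inner continuous_const)).continuousOn
  have hle := integral_mono (((hJ1.const_mul (2 * (M ^ 2 + m ^ 2) * P)).sub
    (hJ2.const_mul B)).const_mul (2 * ‖P • w + u‖⁻¹)) hJ3 hpt
  rw [← h2I] at hle
  have hcomp : ∫ s, 2 * ‖P • w + u‖⁻¹ * (2 * (M ^ 2 + m ^ 2) * P * (K.g s * (inner ℝ s w) ^ 2) -
      B * (K.g s * |inner ℝ s w|)) = 2 * ‖P • w + u‖⁻¹ * (2 * (M ^ 2 + m ^ 2) * P -
        B * ∫ s, K.g s * |inner ℝ s w|) := by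
    rw [integral_const_mul, integral_sub (hJ1.const_mul _) (hJ2.const_mul _), integral_const_mul,
      integral_const_mul, K.int_sq, hw, one_pow, mul_one]
  have hR := K.int_abs_le hr0 hw
  have h5 : 2 * ‖P • w + u‖⁻¹ * (2 * (M ^ 2 + m ^ 2) * P - B * (Real.sqrt n / r₀)) ≤
      2 * ‖P • w + u‖⁻¹ * (2 * (M ^ 2 + m ^ 2) * P - B * ∫ s, K.g s * |inner ℝ s w|) := by
    have h6 := mul_le_mul_of_nonneg_left hR hB0
    apply mul_le_mul_of_nonneg_left _ hq0
    linarith
  have h7 : 2 * ‖P • w + u‖⁻¹ * (2 * (M ^ 2 + m ^ 2) * P - B * ∫ s, K.g s * |inner ℝ s w|) ≤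
      2 * I := by
    rw [← hcomp]
    exact hle
  rw [← hI, ← hB]
  linarith


end

end Pool.Agent.U211.SPH
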