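import Pool.Agent.U211.SPH.IntB
import Pool.Agent.U211.SPH.IntC

/-!
# The mollification is injective on spheres
-/

set_option autoImplicit false

open Set Filter Topology Metric Function MeasureTheory
open scoped Manifold ContDiff Convolution

noncomputable section

namespace Pool.Agent.U211.SPH

open Pool.Agent.Y522 Pool.Agent.U211.BL Pool.Agent.U211.BLV

variable {n d : ℕ} {r₀ : ℝ} (K : Ker n r₀)

variable {j : E n → E d} {m M : ℝ}

theorem GG_hasFDerivAt (hj : OnS j m M) (v : E n) :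
    ∃ D : E n →L[ℝ] E d, HasFDerivAt (GG K j) D v ∧ ∀ w, D w = DD K j w v := by
  obtain ⟨D, h1, h2⟩ := BLV.moll_hasFDerivAt K (cone_cont hj).locallyIntegrable one_pos v
  refine ⟨D, ?_, fun w => ?_⟩
  · have e1 : (fun y => ∫ s, K.k s • cone j (y + (1 : ℝ) • s)) = GG K j := by
      funext y
      unfold GG
      simp only [one_smul]
    rwa [e1] at h1
  · rw [h2 w]
    unfold DD
    simp only [one_smul, inv_one]

theorem GG_smooth (hj : OnS j m M) : ContDiff ℝ ∞ (GG K j) := by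
  have h : GG K j = (cone j ⋆[BLV.LL d, volume] gk K 1) := by
    funext v
    have h1 := BLV.moll_conv K (cone j) v one_pos
    rw [← h1]
    unfold GG
    simp only [one_smul]
  rw [h]
  exact (gk_supp K one_pos).contDiff_convolution_right (BLV.LL d)
    (cone_cont hj).locallyIntegrable (gk_smooth K)

/-- the numerical condition -/
def NC (n : ℕ) (r₀ m M : ℝ) : Prop :=
  (M ^ 2 - m ^ 2) ^ 2 * (1 + (Real.sqrt n / r₀) ^ 2) < (M ^ 2 + m ^ 2) ^ 2

/-- the derivative -/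
theorem imm (hr0 : 0 < r₀) (hm : 0 < m) (hmM : m ≤ M) (hj : OnS j m M) (hN : NC n r₀ m M)
    {v w : E n} (hw : ‖w‖ = 1) (hv : inner ℝ v w = 0) : DD K j w v ≠ 0 := by
  intro h0
  have h1 := small K hr0 hm.le hmM hj hw hv one_pos 0
  rw [zero_smul, add_zero, sub_zero, h0, add_zero, inner_zero_left] at h1
  have hq := q_pos hw hv one_pos
  have hMm : 0 ≤ M ^ 2 - m ^ 2 := by nlinarith
  have hc : 0 ≤ Real.sqrt n / r₀ := by positivity
  have h2 : (M ^ 2 - m ^ 2) * (Real.sqrt n / r₀) < M ^ 2 + m ^ 2 := by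
    apply lt_of_pow_lt_pow_left₀ 2 (by positivity)
    unfold NC at hN
    nlinarith [sq_nonneg (M ^ 2 - m ^ 2)]
  have h3 : 0 < ‖(1 : ℝ) • w + v‖⁻¹ * (2 * (M ^ 2 + m ^ 2) * 1 - (M ^ 2 - m ^ 2) *
      (1 ^ 2 + 1 + 0 ^ 2) * (Real.sqrt n / r₀)) := by
    apply mul_pos (inv_pos.2 hq)
    linarith
  linarith

/-- the injectivity -/
theorem inj (hr0 : 0 < r₀) (hm : 0 < m) (hmM : m ≤ M) (hj : OnS j m M) (hN : NC n r₀ m M)
    {v v' : E n} (hvv : ‖v‖ = ‖v'‖) (hne : v ≠ v') : GG K j v ≠ GG K j v' := by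
  intro h0
  obtain ⟨μ, hμ⟩ : ∃ μ, μ = ‖v - v'‖ / 2 := ⟨_, rfl⟩
  have hμ0 : 0 < μ := by
    rw [hμ]
    have := norm_pos_iff.2 (sub_ne_zero.2 hne)
    positivity
  obtain ⟨w, hwd⟩ : ∃ w, w = (2 * μ)⁻¹ • (v - v') := ⟨_, rfl⟩
  obtain ⟨u, hud⟩ : ∃ u, u = (1 / 2 : ℝ) • (v + v') := ⟨_, rfl⟩
  have hw : ‖w‖ = 1 := by
    have h1 : ‖v - v'‖ = 2 * μ := by rw [hμ]; ring
    rw [hwd, norm_smul, h1, Real.norm_of_nonneg (by positivity)]
    exact inv_mul_cancel₀ (by positivity)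
  have hu : inner ℝ u w = 0 := by
    have h1 : inner ℝ (v + v') (v - v') = (0 : ℝ) := by
      rw [inner_add_left, inner_sub_right, inner_sub_right, real_inner_self_eq_norm_sq,
        real_inner_self_eq_norm_sq, hvv, real_inner_comm v v']
      ring
    rw [hud, hwd, inner_smul_left, inner_smul_right, h1]
    simp
  have hμw : μ • w = (1 / 2 : ℝ) • (v - v') := by
    rw [hwd, smul_smul]
    congr 1
    field_simp
  have hv : u + μ • w = v := by
    rw [hμw, hud, ← smul_add]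
    rw [show v + v' + (v - v') = (2 : ℝ) • v by rw [two_smul]; abel, smul_smul]
    norm_num
  have hv' : u - μ • w = v' := by
    rw [hμw, hud, ← smul_sub]
    rw [show v + v' - (v - v') = (2 : ℝ) • v' by rw [two_smul]; abel, smul_smul]
    norm_num
  obtain ⟨P, hPd⟩ : ∃ P, P = Real.sqrt (1 + μ ^ 2) := ⟨_, rfl⟩
  have hP : 0 < P := by
    rw [hPd]
    positivity
  have hP2 : P ^ 2 = 1 + μ ^ 2 := by
    rw [hPd]
    exact Real.sq_sqrt (by positivity)
  obtain ⟨c, hc⟩ : ∃ c, c = Real.sqrt n / r₀ := ⟨_, rfl⟩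
  have hc0 : 0 ≤ c := by rw [hc]; positivity
  have hMm : 0 ≤ M ^ 2 - m ^ 2 := by nlinarith
  have hMp : 0 < M ^ 2 + m ^ 2 := by positivity
  have hq := q_pos hw hu hP
  unfold NC at hN
  rw [← hc] at hN
  obtain ⟨e, he⟩ : ∃ e, e = j (tv w u P) - j (rf w (tv w u P)) := ⟨_, rfl⟩
  by_cases hcase : (M ^ 2 - m ^ 2) * P * c < M ^ 2 + m ^ 2
  · obtain ⟨φ, hφ⟩ : ∃ φ : ℝ → ℝ, φ = fun τ =>
      innerSL ℝ e (GG K j (u + τ • w) - GG K j (u - τ • w)) := ⟨_, rfl⟩
    have hd : ∀ τ, HasDerivAt φ (innerSL ℝ e (DD K j w (u + τ • w) + DD K j w (u - τ • w))) τ := by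
      intro τ
      obtain ⟨D1, h1, h2⟩ := GG_hasFDerivAt K hj (u + τ • w)
      obtain ⟨D2, h3, h4⟩ := GG_hasFDerivAt K hj (u - τ • w)
      have l1 : HasDerivAt (fun τ : ℝ => u + τ • w) w τ := by
        have := ((hasDerivAt_id τ).smul_const w).const_add u
        simpa using this
      have l2 : HasDerivAt (fun τ : ℝ => u - τ • w) (-w) τ := by
        have := ((hasDerivAt_id τ).smul_const w).const_sub u
        simpa using this
      have a1 : HasDerivAt (GG K j ∘ fun τ : ℝ => u + τ • w) (D1 w) τ :=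
        HasFDerivAt.comp_hasDerivAt (f := fun τ : ℝ => u + τ • w) τ h1 l1
      have a2 : HasDerivAt (GG K j ∘ fun τ : ℝ => u - τ • w) (D2 (-w)) τ :=
        HasFDerivAt.comp_hasDerivAt (f := fun τ : ℝ => u - τ • w) τ h3 l2
      have a3 := (innerSL ℝ e).hasFDerivAt.comp_hasDerivAt τ (a1.sub a2)
      rw [h2, map_neg, h4, sub_neg_eq_add] at a3
      rw [hφ]
      exact a3
    have hpos : ∀ τ, 0 ≤ τ → τ ≤ μ →
        0 < innerSL ℝ e (DD K j w (u + τ • w) + DD K j w (u - τ • w)) := by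
      intro τ h1 h2
      have h3 := small K hr0 hm.le hmM hj hw hu hP τ
      rw [← he, ← hc] at h3
      rw [innerSL_apply_apply, real_inner_comm]
      refine lt_of_lt_of_le ?_ h3
      apply mul_pos (inv_pos.2 hq)
      have h4 : P ^ 2 + 1 + τ ^ 2 ≤ 2 * P ^ 2 := by
        rw [hP2]
        nlinarith
      have h5 : (M ^ 2 - m ^ 2) * (P ^ 2 + 1 + τ ^ 2) * c ≤ (M ^ 2 - m ^ 2) * (2 * P ^ 2) * c := by
        gcongr
      have h6 : (M ^ 2 - m ^ 2) * (2 * P ^ 2) * c < 2 * (M ^ 2 + m ^ 2) * P := by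
        have := mul_lt_mul_of_pos_right hcase (show 0 < 2 * P by positivity)
        nlinarith
      linarith
    have hmono : StrictMonoOn φ (Icc 0 μ) := by
      apply strictMonoOn_of_deriv_pos (convex_Icc 0 μ)
      · exact fun τ _ => (hd τ).continuousAt.continuousWithinAt
      · intro τ hτ
        rw [interior_Icc] at hτ
        rw [(hd τ).deriv]
        exact hpos τ hτ.1.le hτ.2.le
    have h1 := hmono (left_mem_Icc.2 hμ0.le) (right_mem_Icc.2 hμ0.le) hμ0
    have h2 : φ 0 = 0 := by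
      rw [hφ]
      simp
    have h3 : φ μ = 0 := by
      rw [hφ]
      show innerSL ℝ e (GG K j (u + μ • w) - GG K j (u - μ • w)) = 0
      rw [hv, hv', h0, sub_self, map_zero]
    rw [h2, h3] at h1
    exact lt_irrefl _ h1
  · have h1 := big K hm.le hmM hj hw hu hP μ
    have hrv : rf w (u + μ • w) = u - μ • w := by
      rw [rf_add, rf_smul_w hw, rf_orth hu, ← sub_eq_add_neg]
    rw [hrv, hv, hv', h0, sub_self, inner_zero_left] at h1
    push Not at hcase
    have h2 : (M ^ 2 - m ^ 2) * P < (M ^ 2 + m ^ 2) * μ := by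
      apply lt_of_pow_lt_pow_left₀ 2 (by positivity)
      have h3 : (M ^ 2 + m ^ 2) ^ 2 ≤ ((M ^ 2 - m ^ 2) * P * c) ^ 2 := by gcongr
      have h4 : μ ^ 2 = P ^ 2 - 1 := by linarith
      have h5 := mul_lt_mul_of_pos_left hN (show 0 < P ^ 2 by positivity)
      rw [mul_pow, mul_pow, h4]
      nlinarith
    have h3 : 0 < 2 * ‖P • w + u‖⁻¹ * ((M ^ 2 + m ^ 2) * P * μ -
        (M ^ 2 - m ^ 2) * (μ ^ 2 + 1 + P ^ 2) / 2) := by
      apply mul_pos (by positivity)
      have h4 : (M ^ 2 - m ^ 2) * (μ ^ 2 + 1 + P ^ 2) / 2 = (M ^ 2 - m ^ 2) * P * P := by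
        rw [show μ ^ 2 + 1 + P ^ 2 = 2 * P ^ 2 by rw [hP2]; ring]
        ring
      rw [h4]
      nlinarith
    linarith

end Pool.Agent.U211.SPH
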