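import Pool.Agent.U211.SPH.Cone

/-!
# Integration of the pointwise estimates
-/

set_option autoImplicit false

open Set Filter Topology Metric Function MeasureTheory
open scoped Manifold ContDiff

noncomputable section

namespace Pool.Agent.U211.SPH

open Pool.Agent.Y522 Pool.Agent.U211.BL Pool.Agent.U211.BLV

variable {n d : ℕ} {r₀ : ℝ} (K : Ker n r₀)

variable {j : E n → E d} {m M : ℝ}

theorem cone_cont (hj : OnS j m M) : Continuous (cone j) := by
  have hjc : ContinuousOn j (sphere (0 : E n) 1) := by
    have h1 : LipschitzOnWith (Real.toNNReal (max M 0)) j (sphere (0 : E n) 1) := by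
      apply LipschitzOnWith.of_dist_le_mul
      intro x hx y hy
      rw [mem_sphere_zero_iff_norm] at hx hy
      rw [dist_eq_norm, dist_eq_norm, Real.coe_toNNReal _ (le_max_right _ _)]
      exact (hj x y hx hy).2.trans (mul_le_mul_of_nonneg_right (le_max_left _ _) (norm_nonneg _))
    exact h1.continuousOn
  obtain ⟨C, hC⟩ := (isCompact_sphere (0 : E n) 1).exists_bound_of_continuousOn hjc
  have hns : ∀ z : E n, z ≠ 0 → ‖z‖⁻¹ • z ∈ sphere (0 : E n) 1 := by
    intro z hz
    rw [mem_sphere_zero_iff_norm, norm_smul, norm_inv, norm_norm,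
      inv_mul_cancel₀ (norm_pos_iff.2 hz).ne']
  rw [continuous_iff_continuousAt]
  intro z
  rcases eq_or_ne z 0 with rfl | hz
  · have h0 : cone j (0 : E n) = 0 := by
      unfold cone
      rw [norm_zero, zero_smul]
    have h1 : ∀ y : E n, ‖cone j y‖ ≤ C * ‖y‖ := by
      intro y
      rcases eq_or_ne y 0 with rfl | hy
      · rw [h0]
        simp
      · unfold cone
        rw [norm_smul, norm_norm, mul_comm]
        exact mul_le_mul_of_nonneg_right (hC _ (hns y hy)) (norm_nonneg _)
    rw [ContinuousAt, h0]
    apply squeeze_zero_norm h1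
    have h2 : Continuous fun y : E n => C * ‖y‖ := by fun_prop
    have h3 := h2.tendsto (0 : E n)
    simpa using h3
  · have h1 : ContinuousOn (cone j) {0}ᶜ := by
      unfold cone
      apply ContinuousOn.smul continuous_norm.continuousOn
      apply hjc.comp _ fun y hy => hns y hy
      have h2 : ContinuousOn (fun y : E n => ‖y‖⁻¹) {0}ᶜ :=
        continuous_norm.continuousOn.inv₀ fun y hy => (norm_pos_iff.2 hy).ne'
      exact ContinuousOn.smul (f := fun y : E n => ‖y‖⁻¹) (g := fun y : E n => y) h2 continuousOn_id
    exact h1.continuousAt (isOpen_compl_singleton.mem_nhds hz)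

/-- the mollification of the cone with radius one -/
def GG (j : E n → E d) (v : E n) : E d := ∫ s, K.k s • cone j (v + s)

/-- its derivative -/
def DD (j : E n → E d) (w v : E n) : E d := ∫ s, (K.g s * inner ℝ s w) • cone j (v + s)

theorem k_odd (w : E n) : ∫ s, K.k s * inner ℝ s w = 0 := by
  have h1 : ∫ s, K.k s * inner ℝ s w = ∫ s, K.k (-s) * inner ℝ (-s) w :=
    (integral_neg_eq_self (fun s => K.k s * inner ℝ s w) volume).symm
  have h2 : ∫ s, K.k (-s) * inner ℝ (-s) w = -∫ s, K.k s * inner ℝ s w := by
    rw [← integral_neg]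
    congr 1
    funext s
    rw [K.rad (-s) s (norm_neg s), inner_neg_left, mul_neg]
  rw [h2] at h1
  linarith

theorem cs_cont (hj : OnS j m M) (v : E n) : Continuous (fun s => cone j (v + s)) :=
  (cone_cont hj).comp (by fun_prop)

theorem GG_rf (hj : OnS j m M) {w : E n} (hw : ‖w‖ = 1) (v : E n) :
    GG K j v - GG K j (rf w v) = ∫ s, K.k s • (cone j (v + s) - cone j (rf w (v + s))) := by
  have h1 : GG K j (rf w v) = ∫ s, K.k s • cone j (rf w (v + s)) := by
    unfold GG
    rw [← integral_rf hw (fun s => K.k s • cone j (rf w v + s))]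
    congr 1
    funext s
    rw [K.rad _ _ (rf_norm hw s), ← rf_add]
  rw [h1]
  unfold GG
  rw [← integral_sub]
  · congr 1
    funext s
    rw [smul_sub]
  · exact k_smul_integrable K (cs_cont hj v).continuousOn
  · exact k_smul_integrable K
      (((cone_cont hj).comp ((rfE w hw).continuous.comp (by fun_prop : Continuous fun s => v + s))).continuousOn)


end Pool.Agent.U211.SPH
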