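import Pool.Agent.U211.SPH.IntA

/-!
# Integration of the pointwise estimates
-/

set_option autoImplicit false

open Set Filter Topology Metric Function MeasureTheory
open scoped Manifold ContDiff

noncomputable section

namespace Pool.Agent.U211.SPH

open Pool.Agent.Y522 Pool.Agent.U211.BL Pool.Agent.U211.BLV

variable {n d : ℕ} {r₀ : ℝ} (K : Ker n r₀)

variable {j : E n → E d} {m M : ℝ}

section

variable {w u : E n} {P : ℝ}

/-- the estimate for distant points -/
theorem big (hm : 0 ≤ m) (hmM : m ≤ M) (hj : OnS j m M) (hw : ‖w‖ = 1) (hu : inner ℝ u w = 0)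
    (hP : 0 < P) (μ : ℝ) :
    2 * ‖P • w + u‖⁻¹ * ((M ^ 2 + m ^ 2) * P * μ - (M ^ 2 - m ^ 2) * (μ ^ 2 + 1 + P ^ 2) / 2) ≤
      inner ℝ (GG K j (u + μ • w) - GG K j (rf w (u + μ • w)))
        (j (tv w u P) - j (rf w (tv w u P))) := by
  obtain ⟨e, he⟩ : ∃ e, e = j (tv w u P) - j (rf w (tv w u P)) := ⟨_, rfl⟩
  rw [GG_rf K hj hw, ← he]
  have hcont : Continuous fun s => cone j (u + μ • w + s) - cone j (rf w (u + μ • w + s)) :=
    (cs_cont hj _).sub ((cone_cont hj).comp ((rfE w hw).continuous.comp (by fun_prop)))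
  have hint := BLV.k_smul_integrable K (f := fun s => cone j (u + μ • w + s) -
    cone j (rf w (u + μ • w + s))) hcont.continuousOn
  rw [real_inner_comm, ← integral_inner (𝕜 := ℝ) hint e]
  obtain ⟨C0, hC0⟩ : ∃ C0, C0 = 2 * ‖P • w + u‖⁻¹ * ((M ^ 2 + m ^ 2) * P * μ -
    (M ^ 2 - m ^ 2) * (μ ^ 2 + 1 + P ^ 2) / 2) := ⟨_, rfl⟩
  obtain ⟨C1, hC1⟩ : ∃ C1, C1 = 2 * ‖P • w + u‖⁻¹ * ((M ^ 2 + m ^ 2) * P - (M ^ 2 - m ^ 2) * μ) :=
    ⟨_, rfl⟩
  rw [← hC0]
  have hi1 : Integrable fun s => K.k s * inner ℝ s w := by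
    have := BLV.k_smul_integrable K (f := fun s : E n => (inner ℝ s w : ℝ) • w) (by fun_prop)
    have h2 := this.inner_const (𝕜 := ℝ) w
    refine h2.congr (Eventually.of_forall fun s => ?_)
    simp only [inner_smul_left, real_inner_self_eq_norm_sq, hw, conj_trivial]
    ring
  have hi2 : Integrable fun s => K.k s * C0 + C1 * (K.k s * inner ℝ s w) :=
    (K.integrable.mul_const _).add (hi1.const_mul _)
  have h3 : ∫ s, (K.k s * C0 + C1 * (K.k s * inner ℝ s w)) = C0 := by
    rw [integral_add (K.integrable.mul_const _) (hi1.const_mul _), integral_mul_const, K.int,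
      integral_const_mul, k_odd, mul_zero, one_mul, add_zero]
  calc C0 = ∫ s, (K.k s * C0 + C1 * (K.k s * inner ℝ s w)) := h3.symm
    _ ≤ _ := by
      apply integral_mono hi2 (hint.const_inner (𝕜 := ℝ) e)
      intro s
      show K.k s * C0 + C1 * (K.k s * inner ℝ s w) ≤
        inner ℝ e (K.k s • (cone j (u + μ • w + s) - cone j (rf w (u + μ • w + s))))
      rw [inner_smul_right, real_inner_comm _ e]
      by_cases hs : K.k s = 0
      · rw [hs]
        simp
      have hs1 : ‖s‖ ^ 2 ≤ 1 := by nlinarith [K.lt hs, norm_nonneg s]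
      have h4 := pz hm hmM hj hw hu hP (u + μ • w + s)
      rw [← he] at h4
      have huw : inner ℝ w u = 0 := by rw [real_inner_comm]; exact hu
      have hww : inner ℝ w w = (1 : ℝ) := by rw [real_inner_self_eq_norm_sq, hw, one_pow]
      have hus : inner ℝ u s = inner ℝ s u := real_inner_comm _ _
      have hws : inner ℝ w s = inner ℝ s w := real_inner_comm _ _
      have h5 : 2 * ‖P • w + u‖⁻¹ * ((M ^ 2 + m ^ 2) * P * inner ℝ (u + μ • w + s) w +
          (M ^ 2 - m ^ 2) * inner ℝ (u + μ • w + s) u -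
          (M ^ 2 - m ^ 2) * (‖u + μ • w + s‖ ^ 2 + (P ^ 2 + ‖u‖ ^ 2)) / 2) =
          C0 + C1 * inner ℝ s w + ‖P • w + u‖⁻¹ * ((M ^ 2 - m ^ 2) * (1 - ‖s‖ ^ 2)) := by
        rw [hC0, hC1]
        simp only [← real_inner_self_eq_norm_sq, inner_add_left, inner_add_right,
          inner_smul_left, inner_smul_right, huw, hu, hww, hus, hws, conj_trivial]
        ring
      rw [h5] at h4
      have h6 : 0 ≤ ‖P • w + u‖⁻¹ * ((M ^ 2 - m ^ 2) * (1 - ‖s‖ ^ 2)) := by
        have h7 : 0 ≤ M ^ 2 - m ^ 2 := by nlinarith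
        have h8 : 0 ≤ 1 - ‖s‖ ^ 2 := by linarith
        positivity
      have h9 : C0 + C1 * inner ℝ s w ≤
          inner ℝ (cone j (u + μ • w + s) - cone j (rf w (u + μ • w + s))) e := by linarith
      calc K.k s * C0 + C1 * (K.k s * inner ℝ s w) = K.k s * (C0 + C1 * inner ℝ s w) := by ring
        _ ≤ _ := mul_le_mul_of_nonneg_left h9 (K.nonneg s)


end

end Pool.Agent.U211.SPH
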