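import Pool.Agent.U211.SPH.Inj
import Pool.Agent.U211.ISO.Path

/-!
# The isotopy from an embedding of the sphere of small distortion to a linear map
-/

set_option autoImplicit false

open Set Filter Topology Metric Function MeasureTheory
open scoped Manifold ContDiff Convolution

noncomputable section

namespace Pool.Agent.U211.SPH

open Pool.Agent.Y522 Pool.Agent.U211.BL Pool.Agent.U211.BLV Pool.Agent.U211.ISO

variable {n d : ℕ} {r₀ : ℝ} (K : Ker n r₀)

variable {j : E n → E d} {m M : ℝ}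

/-- the mollification of the cone with radius `t` -/
def FS (j : E n → E d) (t : ℝ) (x : E n) : E d := ∫ s, K.k s • cone j (x + t • s)

theorem cone_smul {t : ℝ} (ht : 0 < t) (z : E n) : cone j (t • z) = t • cone j z := by
  unfold cone
  rw [norm_smul, Real.norm_of_nonneg ht.le, mul_smul, smul_smul (t * ‖z‖)⁻¹ t z]
  congr 3
  rw [mul_inv, mul_comm t⁻¹, mul_assoc, inv_mul_cancel₀ ht.ne', mul_one]

theorem cone_of_norm {z : E n} (hz : ‖z‖ = 1) : cone j z = j z := by
  unfold cone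
  rw [hz, inv_one, one_smul, one_smul]

theorem FS_pos {t : ℝ} (ht : 0 < t) (x : E n) : FS K j t x = t • GG K j (t⁻¹ • x) := by
  unfold FS GG
  rw [← integral_smul]
  congr 1
  funext s
  have h1 : x + t • s = t • (t⁻¹ • x + s) := by
    rw [smul_add, smul_smul, mul_inv_cancel₀ ht.ne', one_smul]
  rw [h1, cone_smul ht, smul_comm]

theorem FS_zero (x : E n) : FS K j 0 x = cone j x := by
  unfold FS
  simp only [zero_smul, add_zero]
  rw [integral_smul_const, K.int, one_smul]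

/-- smooth near the sphere -/
def SmS (j : E n → E d) : Prop := ∀ x : E n, ‖x‖ = 1 → ContDiffAt ℝ ∞ j x

theorem cone_smooth (hs : SmS j) {z : E n} (hz : z ≠ 0) : ContDiffAt ℝ ∞ (cone j) z := by
  have h0 : ‖z‖ ≠ 0 := (norm_pos_iff.2 hz).ne'
  have h1 : ContDiffAt ℝ ∞ (fun z : E n => ‖z‖) z := contDiffAt_norm ℝ hz
  have h2 : ContDiffAt ℝ ∞ (fun z : E n => ‖z‖⁻¹ • z) z := (h1.inv h0).smul contDiffAt_id
  have h3 : ‖(‖z‖⁻¹ • z)‖ = 1 := by
    rw [norm_smul, norm_inv, norm_norm, inv_mul_cancel₀ h0]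
  have h4 : ContDiffAt ℝ ∞ (fun z : E n => j (‖z‖⁻¹ • z)) z :=
    ContDiffAt.comp z (f := fun z : E n => ‖z‖⁻¹ • z) (hs _ h3) h2
  exact h1.smul h4

/-- a smooth function equal to the cone outside the ball of radius `1/2` -/
theorem exists_cut (hs : SmS j) : ∃ J : E n → E d, ContDiff ℝ ∞ J ∧
    ∀ z : E n, 1 / 2 ≤ ‖z‖ → J z = cone j z := by
  let ζ : ContDiffBump (0 : E n) := ⟨1 / 4, 1 / 2, by norm_num, by norm_num⟩
  refine ⟨fun z => (1 - ζ z) • cone j z, ?_, fun z hz => ?_⟩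
  · rw [contDiff_iff_contDiffAt]
    intro z
    rcases eq_or_ne z 0 with rfl | hz
    · have h1 : (fun z => (1 - ζ z) • cone j z) =ᶠ[𝓝 (0 : E n)] fun _ => 0 := by
        filter_upwards [closedBall_mem_nhds (0 : E n) (by norm_num : (0 : ℝ) < 1 / 4)] with y hy
        rw [ζ.one_of_mem_closedBall hy, sub_self, zero_smul]
      exact contDiffAt_const.congr_of_eventuallyEq h1
    · exact (contDiffAt_const.sub ζ.contDiffAt).smul (cone_smooth hs hz)
  · show (1 - ζ z) • cone j z = cone j z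
    rw [ζ.zero_of_le_dist (by rw [dist_zero_right]; exact hz), sub_zero, one_smul]

/-- joint smoothness -/
theorem FS_smooth (hj : OnS j m M) (hs : SmS j) {t : ℝ} (ht : 0 ≤ t) {x : E n} (hx : ‖x‖ = 1) :
    ContDiffAt ℝ ∞ (fun q : ℝ × E n => FS K j q.1 q.2) (t, x) := by
  rcases ht.eq_or_lt with rfl | ht
  · obtain ⟨J, hJ1, hJ2⟩ := exists_cut hs
    have h1 : ContDiff ℝ ∞ (fun q : ℝ × E n => ∫ s, K.k s • J (q.2 + q.1 • s)) :=
      (BLV.moll_joint K hJ1).comp (contDiff_snd.prodMk contDiff_fst)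
    refine h1.contDiffAt.congr_of_eventuallyEq ?_
    have h2 : ∀ᶠ q : ℝ × E n in 𝓝 (0, x), 3 / 4 < ‖q.2‖ := by
      have : Continuous fun q : ℝ × E n => ‖q.2‖ := by fun_prop
      apply this.continuousAt.eventually_const_lt
      show 3 / 4 < ‖x‖
      rw [hx]
      norm_num
    have h3 : ∀ᶠ q : ℝ × E n in 𝓝 (0, x), |q.1| < 1 / 4 := by
      have : Continuous fun q : ℝ × E n => |q.1| := by fun_prop
      apply this.continuousAt.eventually_lt_const
      show |(0 : ℝ)| < 1 / 4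
      norm_num
    filter_upwards [h2, h3] with q hq2 hq3
    unfold FS
    congr 1
    funext s
    by_cases hk : K.k s = 0
    · rw [hk, zero_smul, zero_smul]
    · rw [hJ2]
      have h4 : ‖q.1 • s‖ ≤ 1 / 4 := by
        rw [norm_smul, Real.norm_eq_abs]
        have := K.lt hk
        nlinarith [abs_nonneg q.1, norm_nonneg s]
      have h5 := norm_sub_le (q.2 + q.1 • s) (q.1 • s)
      rw [add_sub_cancel_right] at h5
      linarith
  · have h1 : ContDiffAt ℝ ∞ (fun q : ℝ × E n => q.1 • GG K j (q.1⁻¹ • q.2)) (t, x) := by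
      have h2 : ContDiffAt ℝ ∞ (fun q : ℝ × E n => q.1⁻¹ • q.2) (t, x) :=
        (contDiffAt_fst.inv ht.ne').smul contDiffAt_snd
      exact contDiffAt_fst.smul ((GG_smooth K hj).contDiffAt.comp (t, x) h2)
    refine h1.congr_of_eventuallyEq ?_
    have h2 : ∀ᶠ q : ℝ × E n in 𝓝 (t, x), 0 < q.1 :=
      continuous_fst.continuousAt.eventually_const_lt ht
    filter_upwards [h2] with q hq
    exact FS_pos K hq q.2

/-- the restriction to the unit sphere is an injective immersion -/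
def EmbS (f : E n → E d) : Prop :=
  (∀ x y : E n, ‖x‖ = 1 → ‖y‖ = 1 → f x = f y → x = y) ∧
    ∀ x w : E n, ‖x‖ = 1 → inner ℝ x w = 0 → w ≠ 0 → fderiv ℝ f x w ≠ 0

theorem FS_emb (hr0 : 0 < r₀) (hm : 0 < m) (hmM : m ≤ M) (hj : OnS j m M) (hN : NC n r₀ m M)
    {t : ℝ} (ht : 0 < t) : EmbS (FS K j t) := by
  have hF : FS K j t = fun x => t • GG K j (t⁻¹ • x) := funext fun x => FS_pos K ht x
  constructor
  · intro x y hx hy hxy
    by_contra hne
    rw [hF] at hxy
    have h1 : GG K j (t⁻¹ • x) = GG K j (t⁻¹ • y) := smul_right_injective _ ht.ne' hxy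
    refine inj K hr0 hm hmM hj hN ?_ ?_ h1
    · rw [norm_smul, norm_smul, hx, hy]
    · exact fun h => hne (smul_right_injective _ (inv_ne_zero ht.ne') h)
  · intro x w hx hxw hw0 h0
    have hw : 0 < ‖w‖ := norm_pos_iff.2 hw0
    obtain ⟨D, hD1, hD2⟩ := GG_hasFDerivAt K hj (t⁻¹ • x)
    have h1 : HasFDerivAt (fun x : E n => t⁻¹ • x) (t⁻¹ • ContinuousLinearMap.id ℝ (E n)) x :=
      (hasFDerivAt_id x).const_smul t⁻¹
    have h2 : HasFDerivAt (fun x => t • GG K j (t⁻¹ • x))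
        (t • D.comp (t⁻¹ • ContinuousLinearMap.id ℝ (E n))) x :=
      (HasFDerivAt.comp (f := fun x : E n => t⁻¹ • x) x hD1 h1).const_smul t
    rw [hF, h2.fderiv] at h0
    have h3 : t • D (t⁻¹ • w) = 0 := h0
    rw [map_smul, smul_smul, mul_inv_cancel₀ ht.ne', one_smul] at h3
    have h4 : w = ‖w‖ • (‖w‖⁻¹ • w) := by rw [smul_smul, mul_inv_cancel₀ hw.ne', one_smul]
    rw [h4, map_smul, hD2] at h3
    have h5 := (smul_eq_zero.1 h3).resolve_left hw.ne'
    refine imm K hr0 hm hmM hj hN ?_ ?_ h5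
    · rw [norm_smul, norm_inv, norm_norm, inv_mul_cancel₀ hw.ne']
    · rw [inner_smul_left, inner_smul_right, hxw]
      simp

end Pool.Agent.U211.SPH
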